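import Pool.Agent.Helper29_CF.Stmt

/-!
# CF, module HALF: a colouring that alternates along two involutions
-/

set_option autoImplicit false

namespace Pool.Agent.Helper29_CF.H92

theorem half_aux {I : Type} [DecidableEq I] : ∀ (n : ℕ) (A : Finset I) (σ τ : I → I),
    A.card = n → (∀ i ∈ A, σ i ∈ A) → (∀ i ∈ A, σ (σ i) = i) → (∀ i ∈ A, τ i ∈ A) →
    (∀ i ∈ A, τ (τ i) = i) →
    ∃ χ : I → Bool, (∀ i ∈ A, σ i ≠ i → χ (σ i) ≠ χ i) ∧ (∀ i ∈ A, τ i ≠ i → χ (τ i) ≠ χ i) := by
  intro n
  induction n using Nat.strong_induction_on with
  | _ n ih =>
    intro A σ τ hn hσA hσ hτA hτ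
    by_cases h1 : ∃ i ∈ A, σ i ≠ i
    · obtain ⟨i, hi, hij⟩ := h1
      set j := σ i with hj
      have hjA : j ∈ A := hσA i hi
      have hσj : σ j = i := hσ i hi
      set a := τ i with ha
      set b := τ j with hb
      have haA : a ∈ A := hτA i hi
      have hbA : b ∈ A := hτA j hjA
      have hτa : τ a = i := hτ i hi
      have hτb : τ b = j := hτ j hjA
      set A' := (A.erase i).erase j with hA'
      have hmem : ∀ x, x ∈ A' ↔ x ≠ j ∧ x ≠ i ∧ x ∈ A := by
        intro x; simp [hA']
      have hcard : A'.card < n := by
        have : A' ⊆ A.erase i := Finset.erase_subset _ _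
        calc A'.card ≤ (A.erase i).card := Finset.card_le_card this
          _ < A.card := Finset.card_erase_lt_of_mem hi
          _ = n := hn
      let τ' : I → I := fun x => if τ x = i then (if b = j then x else b)
        else if τ x = j then (if a = i then x else a) else τ x
      have hab : a ≠ b := by
        intro h
        apply hij
        rw [← hτa, h, hτb]
      -- a x in A' with tau x = i is a
      have hxa : ∀ x ∈ A', τ x = i → x = a := fun x hx h => by
        rw [← hτ x ((hmem x).1 hx).2.2, h]
      have hxb : ∀ x ∈ A', τ x = j → x = b := fun x hx h => by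
        rw [← hτ x ((hmem x).1 hx).2.2, h]
      have hb_mem : ∀ x ∈ A', x = a → b ≠ j → b ∈ A' := by
        intro x hx hxa' hbj
        refine (hmem b).2 ⟨hbj, ?_, hbA⟩
        intro hbi
        have : a = j := by rw [ha, ← hbi, hτb]
        exact ((hmem x).1 hx).1 (hxa'.trans this)
      have ha_mem : ∀ x ∈ A', x = b → a ≠ i → a ∈ A' := by
        intro x hx hxb' hai
        refine (hmem a).2 ⟨?_, hai, haA⟩
        intro haj
        have : b = i := by rw [hb, ← haj, hτa]
        exact ((hmem x).1 hx).2.1 (hxb'.trans this)
      obtain ⟨χ, hχσ, hχτ⟩ := ih A'.card hcard A' σ τ' rfl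
        (by
          intro x hx
          obtain ⟨h1, h2, h3⟩ := (hmem x).1 hx
          refine (hmem _).2 ⟨?_, ?_, hσA x h3⟩
          · intro h; apply h2; rw [← hσ x h3, h, hσj]
          · intro h; apply h1; rw [← hσ x h3, h])
        (fun x hx => hσ x ((hmem x).1 hx).2.2)
        (by
          intro x hx
          obtain ⟨h1, h2, h3⟩ := (hmem x).1 hx
          simp only [τ']
          split_ifs with c1 c2 c3 c4
          · exact hx
          · exact hb_mem x hx (hxa x hx c1) c2
          · exact hx
          · exact ha_mem x hx (hxb x hx c3) c4
          · exact (hmem _).2 ⟨c3, c1, hτA x h3⟩)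
        (by
          intro x hx
          obtain ⟨h1, h2, h3⟩ := (hmem x).1 hx
          by_cases c1 : τ x = i
          · by_cases c2 : b = j
            · have e : τ' x = x := by simp only [τ', if_pos c1, if_pos c2]
              rw [e, e]
            · have e : τ' x = b := by simp only [τ', if_pos c1, if_neg c2]
              have e2 : x = a := hxa x hx c1
              rw [e]
              have c5 : ¬ τ b = i := by rw [hτb]; exact hij
              have c6 : ¬ a = i := by rw [← e2]; exact h2
              simp only [τ', if_neg c5, if_pos hτb, if_neg c6]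
              exact e2.symm
          · by_cases c3 : τ x = j
            · by_cases c4 : a = i
              · have e : τ' x = x := by simp only [τ', if_neg c1, if_pos c3, if_pos c4]
                rw [e, e]
              · have e : τ' x = a := by simp only [τ', if_neg c1, if_pos c3, if_neg c4]
                have e2 : x = b := hxb x hx c3
                rw [e]
                have c6 : ¬ b = j := by rw [← e2]; exact h1
                simp only [τ', if_pos hτa, if_neg c6]
                exact e2.symm
            · have e : τ' x = τ x := by simp only [τ', if_neg c1, if_neg c3]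
              rw [e]
              have e3 : τ (τ x) = x := hτ x h3
              simp only [τ']
              rw [if_neg (by rw [e3]; exact h2), if_neg (by rw [e3]; exact h1)]
              exact e3)
      -- colours of i and j
      let ci : Bool := if a ∈ A' then !χ a else if b ∈ A' then χ b else true
      let χ2 : I → Bool := fun x => if x = i then ci else if x = j then !ci else χ x
      have e_i : χ2 i = ci := by simp [χ2]
      have e_j : χ2 j = !ci := by simp [χ2, hij]
      have e_x : ∀ x ∈ A', χ2 x = χ x := by
        intro x hx
        obtain ⟨h1, h2, h3⟩ := (hmem x).1 hx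
        simp [χ2, h1, h2]
      have e_a : a ∈ A' → ci = !χ a := by intro h; simp [ci, h]
      have e_b : b ∈ A' → ci = χ b := by
        intro h
        by_cases h2 : a ∈ A'
        · rw [e_a h2]
          have hbj : b ≠ j := ((hmem b).1 h).1
          have e : τ' a = b := by simp only [τ', if_pos hτa, if_neg hbj]
          have h3 := hχτ a h2 (by rw [e]; exact hab.symm)
          rw [e] at h3
          revert h3
          cases χ a <;> cases χ b <;> simp
        · simp [ci, h2, h]
      refine ⟨χ2, ?_, ?_⟩
      · intro x hx hne
        by_cases hxi : x = i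
        · subst hxi
          rw [← hj, e_i, e_j]
          cases ci <;> simp
        · by_cases hxj : x = j
          · rw [hxj, hσj, e_i, e_j]
            cases ci <;> simp
          · have hx' : x ∈ A' := (hmem x).2 ⟨hxj, hxi, hx⟩
            have hsx : σ x ∈ A' := by
              refine (hmem _).2 ⟨?_, ?_, hσA x hx⟩
              · intro h; apply hxi; rw [← hσ x hx, h, hσj]
              · intro h; apply hxj; rw [← hσ x hx, h]
            rw [e_x x hx', e_x _ hsx]
            exact hχσ x hx' hne
      · -- first the pairs meeting i
        have key_i : a ≠ i → χ2 a ≠ χ2 i := by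
          intro h
          by_cases haj : a = j
          · rw [haj, e_i, e_j]; cases ci <;> simp
          · have ha' : a ∈ A' := (hmem a).2 ⟨haj, h, haA⟩
            rw [e_i, e_x a ha', e_a ha']; cases χ a <;> simp
        have key_j : b ≠ j → χ2 b ≠ χ2 j := by
          intro h
          by_cases hbi : b = i
          · rw [hbi, e_i, e_j]; cases ci <;> simp
          · have hb' : b ∈ A' := (hmem b).2 ⟨h, hbi, hbA⟩
            rw [e_j, e_x b hb', e_b hb']; cases χ b <;> simp
        intro x hx hne
        by_cases hxi : x = i
        · rw [hxi]; rw [hxi] at hne; exact key_i hne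
        · by_cases hxj : x = j
          · rw [hxj]; rw [hxj] at hne; exact key_j hne
          · have hx' : x ∈ A' := (hmem x).2 ⟨hxj, hxi, hx⟩
            by_cases c1 : τ x = i
            · have e2 : x = a := hxa x hx' c1
              rw [c1, e2]
              exact (key_i (e2 ▸ hxi)).symm
            · by_cases c3 : τ x = j
              · have e2 : x = b := hxb x hx' c3
                rw [c3, e2]
                exact (key_j (e2 ▸ hxj)).symm
              · have hsx : τ x ∈ A' := (hmem _).2 ⟨c3, c1, hτA x hx⟩
                rw [e_x x hx', e_x _ hsx]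
                have e : τ' x = τ x := by simp only [τ', if_neg c1, if_neg c3]
                have h5 := hχτ x hx' (by rw [e]; exact hne)
                rwa [e] at h5
    · push Not at h1
      by_cases h2 : ∃ i ∈ A, τ i ≠ i
      · obtain ⟨i, hi, hij⟩ := h2
        set j := τ i with hj
        have hjA : j ∈ A := hτA i hi
        have hτj : τ j = i := hτ i hi
        set A' := (A.erase i).erase j with hA'
        have hmem : ∀ x, x ∈ A' ↔ x ≠ j ∧ x ≠ i ∧ x ∈ A := by
          intro x; simp [hA']
        have hcard : A'.card < n := by
          have : A' ⊆ A.erase i := Finset.erase_subset _ _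
          calc A'.card ≤ (A.erase i).card := Finset.card_le_card this
            _ < A.card := Finset.card_erase_lt_of_mem hi
            _ = n := hn
        have hτA' : ∀ x ∈ A', τ x ∈ A' := by
          intro x hx
          obtain ⟨h1, h2, h3⟩ := (hmem x).1 hx
          refine (hmem _).2 ⟨?_, ?_, hτA x h3⟩
          · intro h; apply h2; rw [← hτ x h3, h, hτj]
          · intro h; apply h1; rw [← hτ x h3, h]
        obtain ⟨χ, hχσ, hχτ⟩ := ih A'.card hcard A' σ τ rfl
          (by
            intro x hx
            rw [h1 x ((hmem x).1 hx).2.2]; exact hx)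
          (fun x hx => hσ x ((hmem x).1 hx).2.2) hτA' (fun x hx => hτ x ((hmem x).1 hx).2.2)
        let χ2 : I → Bool := fun x => if x = i then true else if x = j then false else χ x
        have e_i : χ2 i = true := by simp [χ2]
        have e_j : χ2 j = false := by simp [χ2, hij]
        have e_x : ∀ x ∈ A', χ2 x = χ x := by
          intro x hx
          obtain ⟨h1, h2, h3⟩ := (hmem x).1 hx
          simp [χ2, h1, h2]
        refine ⟨χ2, fun x hx hne => absurd (h1 x hx) hne, ?_⟩
        intro x hx hne
        by_cases hxi : x = i
        · rw [hxi, ← hj, e_i, e_j]; simp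
        · by_cases hxj : x = j
          · rw [hxj, hτj, e_i, e_j]; simp
          · have hx' : x ∈ A' := (hmem x).2 ⟨hxj, hxi, hx⟩
            rw [e_x x hx', e_x _ (hτA' x hx')]
            exact hχτ x hx' hne
      · push Not at h2
        exact ⟨fun _ => true, fun x hx hne => absurd (h1 x hx) hne,
          fun x hx hne => absurd (h2 x hx) hne⟩

theorem half : HalfStmt := by
  intro I _ _ σ τ hσ hτ
  obtain ⟨χ, h1, h2⟩ := half_aux _ (Finset.univ : Finset I) σ τ rfl (fun _ _ => Finset.mem_univ _)
    (fun i _ => hσ i) (fun _ _ => Finset.mem_univ _) (fun i _ => hτ i)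
  exact ⟨χ, fun i => h1 i (Finset.mem_univ _), fun i => h2 i (Finset.mem_univ _)⟩

end Pool.Agent.Helper29_CF.H92
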