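import Pool.Agent.Helper29_CF.Stmt

/-!
# CF, module COLA
-/

set_option autoImplicit false

namespace Pool.Agent.Helper29_CF.H92

open Finset

section

variable {V B : Type} [DecidableEq V] [DecidableEq B]

/-- incidences of `e` inside `X` for the choice `φ` -/
def inc (s : B → Finset V) (F : Finset B) (φ : V → B) (X : Finset V) (e : B) : Finset V :=
  X.filter (fun x => x ∈ s e ∧ ¬ (deg s F x = 3 ∧ φ x = e))

theorem card_symm (A C : Finset V) : Even (symmDiff A C).card ↔ (Even A.card ↔ Even C.card) := by
  have h1 : (symmDiff A C).card + 2 * (A ∩ C).card = A.card + C.card := by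
    have h2 : symmDiff A C = (A \ C) ∪ (C \ A) := rfl
    rw [h2, card_union_of_disjoint (disjoint_sdiff_sdiff)]
    have h3 := card_sdiff_add_card_inter A C
    have h4 := card_sdiff_add_card_inter C A
    rw [inter_comm C A] at h4
    omega
  rw [Nat.even_iff, Nat.even_iff, Nat.even_iff]
  omega

theorem inc_symm (s : B → Finset V) (F : Finset B) (φ : V → B) (X Y : Finset V) (e : B) :
    inc s F φ (symmDiff X Y) e = symmDiff (inc s F φ X e) (inc s F φ Y e) := by
  ext x
  simp only [inc, mem_symmDiff, mem_filter]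
  tauto

/-- every point of degree 2, 3, 4 has an even number of incidences -/
theorem even_blocks (s : B → Finset V) (F : Finset B) (φ : V → B) (x : V)
    (hd : deg s F x = 2 ∨ deg s F x = 3 ∨ deg s F x = 4)
    (hφ : deg s F x = 3 → φ x ∈ F ∧ x ∈ s (φ x)) :
    Even (F.filter (fun e => x ∈ s e ∧ ¬ (deg s F x = 3 ∧ φ x = e))).card := by
  by_cases h3 : deg s F x = 3
  · obtain ⟨h1, h2⟩ := hφ h3
    have e : F.filter (fun e => x ∈ s e ∧ ¬ (deg s F x = 3 ∧ φ x = e)) =
        (F.filter (fun e => x ∈ s e)).erase (φ x) := by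
      ext b
      simp only [mem_filter, mem_erase, h3, true_and]
      constructor
      · rintro ⟨a, b, c⟩; exact ⟨fun h => c h.symm, a, b⟩
      · rintro ⟨a, b, c⟩; exact ⟨b, c, fun h => a h.symm⟩
    rw [e, card_erase_of_mem (mem_filter.2 ⟨h1, h2⟩)]
    have h4 : (F.filter (fun e => x ∈ s e)).card = 3 := h3
    rw [h4]
    exact ⟨1, rfl⟩
  · have e : F.filter (fun e => x ∈ s e ∧ ¬ (deg s F x = 3 ∧ φ x = e)) =
        F.filter (fun e => x ∈ s e) := by
      ext b
      simp [h3]
    rw [e]
    have h4 : (F.filter (fun e => x ∈ s e)).card = deg s F x := rfl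
    rw [h4]
    rcases hd with h | h | h
    · rw [h]; exact ⟨1, rfl⟩
    · exact absurd h h3
    · rw [h]; exact ⟨2, rfl⟩

/-- total number of incidences is even -/
theorem even_sum (s : B → Finset V) (F : Finset B) (φ : V → B) (X : Finset V)
    (hX : ∀ x ∈ X, (deg s F x = 2 ∨ deg s F x = 3 ∨ deg s F x = 4) ∧
      (deg s F x = 3 → φ x ∈ F ∧ x ∈ s (φ x))) :
    Even (∑ e ∈ F, (inc s F φ X e).card) := by
  have h : ∑ e ∈ F, (inc s F φ X e).card =
      ∑ x ∈ X, (F.filter (fun e => x ∈ s e ∧ ¬ (deg s F x = 3 ∧ φ x = e))).card := by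
    simp only [inc, card_filter]
    exact sum_comm
  rw [h]
  exact Finset.sum_induction _ Even (fun _ _ => Even.add) ⟨0, rfl⟩
    fun x hx => even_blocks s F φ x (hX x hx).1 (hX x hx).2

theorem inc_mono (s : B → Finset V) (F : Finset B) (φ : V → B) {X Y : Finset V} (h : X ⊆ Y)
    (e : B) : inc s F φ X e ⊆ inc s F φ Y e := filter_subset_filter _ h

theorem inc_inter (s : B → Finset V) (F : Finset B) (φ : V → B) (X Y : Finset V) (e : B) :
    inc s F φ (X ∩ Y) e = inc s F φ X e ∩ inc s F φ Y e := by
  ext x
  simp only [inc, mem_inter, mem_filter]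
  tauto

end

theorem colA {V B : Type} [Fintype V] [DecidableEq V] [Fintype B] [DecidableEq B] [Nonempty B]
    (s : B → Finset V) (F : Finset B) (N : Finset V)
    (hN : ∀ b ∈ F,
      (s b ∩ N.filter (fun x => deg s F x = 2 ∨ deg s F x = 3 ∨ deg s F x = 4)).card ≤ 2) :
    ∃ φ : V → B, (∀ x ∈ N, deg s F x = 3 → φ x ∈ F ∧ x ∈ s (φ x)) ∧
      ∀ S ⊆ N.filter (fun x => deg s F x = 2 ∨ deg s F x = 3 ∨ deg s F x = 4),
        (∀ b ∈ F, Even (S.filter (fun x => x ∈ s b ∧ ¬ (deg s F x = 3 ∧ φ x = b))).card) →
        ∀ x ∈ S, deg s F x ≠ 3 := by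
  classical
  set D := N.filter (fun x => deg s F x = 2 ∨ deg s F x = 3 ∨ deg s F x = 4) with hD
  let Val : (V → B) → Prop := fun φ => ∀ x ∈ N, deg s F x = 3 → φ x ∈ F ∧ x ∈ s (φ x)
  let Z : (V → B) → Finset (Finset V) := fun φ =>
    D.powerset.filter fun S => ∀ e ∈ F, Even (inc s F φ S e).card
  have h0 : ∃ n, ∃ φ, Val φ ∧ (Z φ).card = n := by
    have h1 : ∀ x : V, ∃ b : B, deg s F x = 3 → b ∈ F ∧ x ∈ s b := by
      intro x
      by_cases h : deg s F x = 3
      · have h2 : 0 < (F.filter (fun b => x ∈ s b)).card := by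
          have : (F.filter (fun b => x ∈ s b)).card = 3 := h
          omega
        obtain ⟨b, hb⟩ := card_pos.1 h2
        exact ⟨b, fun _ => mem_filter.1 hb⟩
      · exact ⟨Classical.arbitrary B, fun h' => absurd h' h⟩
    choose φ hφ using h1
    exact ⟨_, φ, fun x _ h => hφ x h, rfl⟩
  obtain ⟨φ, hφ, hcard⟩ := Nat.find_spec h0
  have hmin : ∀ φ', Val φ' → (Z φ).card ≤ (Z φ').card := by
    intro φ' hφ'
    rw [hcard]
    exact Nat.find_min' h0 ⟨φ', hφ', rfl⟩
  refine ⟨φ, hφ, ?_⟩
  intro S hS hSe x hx hx3
  have hSZ : S ∈ Z φ := mem_filter.2 ⟨mem_powerset.2 hS, hSe⟩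
  have hxD : x ∈ D := hS hx
  have hxN : x ∈ N := (mem_filter.1 hxD).1
  obtain ⟨hcF, hxc⟩ := hφ x hxN hx3
  set c := φ x with hc
  obtain ⟨a, ha⟩ : ∃ a, a ∈ (F.filter (fun b => x ∈ s b)).erase c := by
    apply card_pos.1
    have : (F.filter (fun b => x ∈ s b)).card = 3 := hx3
    rw [card_erase_of_mem (mem_filter.2 ⟨hcF, hxc⟩)]
    omega
  obtain ⟨hac, ha2⟩ := mem_erase.1 ha
  obtain ⟨haF, hxa⟩ := mem_filter.1 ha2
  let φ' : V → B := Function.update φ x a
  have hφ' : Val φ' := by
    intro y hy hy3
    by_cases h : y = x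
    · subst h
      simp only [φ', Function.update_self]
      exact ⟨haF, hxa⟩
    · simp only [φ', Function.update_of_ne h]
      exact hφ y hy hy3
  have hnot : ∀ S' ∈ Z φ', x ∉ S' := by
    intro S' hS' hxS'
    obtain ⟨hS'D, hS'e⟩ := mem_filter.1 hS'
    rw [mem_powerset] at hS'D
    -- parities of the incidences of `S'` for `φ`
    have p1 : ∀ e ∈ F, e ≠ a → e ≠ c → Even (inc s F φ S' e).card := by
      intro e he hea hec
      have h1 : inc s F φ S' e = inc s F φ' S' e := by
        ext y
        simp only [inc, mem_filter]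
        by_cases h : y = x
        · subst h
          simp only [φ', Function.update_self]
          have h2 : ¬ (φ y = e) := fun h => hec h.symm
          have h3 : ¬ (a = e) := fun h => hea h.symm
          simp [h2, h3]
        · simp only [φ', Function.update_of_ne h]
      rw [h1]
      exact hS'e e he
    have p2 : ¬ Even (inc s F φ S' a).card := by
      have hxm : x ∈ inc s F φ S' a := mem_filter.2 ⟨hxS', hxa, fun h => hac h.2.symm⟩
      have h1 : inc s F φ' S' a = (inc s F φ S' a).erase x := by
        ext y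
        simp only [inc, mem_filter, mem_erase]
        by_cases h : y = x
        · subst h
          simp only [φ', Function.update_self]
          simp [hx3]
        · simp only [φ', Function.update_of_ne h]
          simp [h]
      have h2 := hS'e a haF
      rw [h1, card_erase_of_mem hxm] at h2
      have h3 := card_pos.2 ⟨x, hxm⟩
      rw [Nat.even_iff] at h2 ⊢
      omega
    have p3 : Even (inc s F φ S a).card := hSe a haF
    -- size of the incidence sets
    have q1 : ∀ e ∈ F, (inc s F φ D e).card ≤ 2 := by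
      intro e he
      refine (card_le_card ?_).trans (hN e he)
      intro y hy
      obtain ⟨h1, h2, h3⟩ := mem_filter.1 hy
      exact mem_inter.2 ⟨h2, h1⟩
    have q2 : (inc s F φ D c).card ≤ 1 := by
      have h1 : inc s F φ D c ⊆ (s c ∩ D).erase x := by
        intro y hy
        obtain ⟨h1, h2, h3⟩ := mem_filter.1 hy
        refine mem_erase.2 ⟨?_, mem_inter.2 ⟨h2, h1⟩⟩
        rintro rfl
        exact h3 ⟨hx3, rfl⟩
      have h2 := card_le_card h1
      rw [card_erase_of_mem (mem_inter.2 ⟨hxc, hxD⟩)] at h2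
      have h3 := hN c hcF
      omega
    have q3 : ∀ e ∈ F, inc s F φ S e = ∅ ∨ inc s F φ S e = inc s F φ D e := by
      intro e he
      have h1 := inc_mono s F φ hS e
      have h2 := card_le_card h1
      have h3 := q1 e he
      have h4 : Even (inc s F φ S e).card := hSe e he
      rw [Nat.even_iff] at h4
      by_cases h5 : (inc s F φ S e).card = 0
      · left; exact card_eq_zero.1 h5
      · right
        exact eq_of_subset_of_card_le h1 (by omega)
    set T := symmDiff S S' with hT
    have hTD : T ⊆ D := by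
      intro y hy
      rcases mem_symmDiff.1 hy with h | h
      · exact hS h.1
      · exact hS'D h.1
    have hTS : ∀ e ∈ F, inc s F φ S e = inc s F φ D e →
        inc s F φ (T ∩ S) e = inc s F φ T e := by
      intro e he h
      rw [inc_inter, h]
      exact inter_eq_left.2 (inc_mono s F φ hTD e)
    have hTS0 : ∀ e ∈ F, inc s F φ S e = ∅ → inc s F φ (T ∩ S) e = ∅ := by
      intro e he h
      rw [inc_inter, h, inter_empty]
    have hpar : ∀ e ∈ F, (Even (inc s F φ T e).card ↔ Even (inc s F φ S' e).card) := by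
      intro e he
      rw [hT, inc_symm, card_symm]
      have : Even (inc s F φ S e).card := hSe e he
      tauto
    have r1 : ¬ Even (inc s F φ (T ∩ S) a).card := by
      have h1 : inc s F φ S a = inc s F φ D a := by
        rcases q3 a haF with h | h
        · exfalso
          have : x ∈ inc s F φ S a := mem_filter.2 ⟨hx, hxa, fun h => hac h.2.symm⟩
          rw [h] at this
          exact absurd this (notMem_empty x)
        · exact h
      rw [hTS a haF h1, hpar a haF]
      exact p2
    have r2 : ∀ e ∈ F.erase a, Even (inc s F φ (T ∩ S) e).card := by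
      intro e he
      obtain ⟨hea, heF⟩ := mem_erase.1 he
      by_cases hec : e = c
      · have h1 : inc s F φ S e = ∅ := by
          rw [hec]
          have h2 := card_le_card (inc_mono s F φ hS c)
          have h3 : Even (inc s F φ S c).card := hSe c hcF
          rw [Nat.even_iff] at h3
          exact card_eq_zero.1 (by omega)
        rw [hTS0 e heF h1]
        exact ⟨0, rfl⟩
      · rcases q3 e heF with h | h
        · rw [hTS0 e heF h]
          exact ⟨0, rfl⟩
        · rw [hTS e heF h, hpar e heF]
          exact p1 e heF hea hec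
    have r3 := even_sum s F φ (T ∩ S) (by
      intro y hy
      have hyD : y ∈ D := hTD (mem_inter.1 hy).1
      obtain ⟨h1, h2⟩ := mem_filter.1 hyD
      exact ⟨h2, fun h => hφ y h1 h⟩)
    have r4 : Even (∑ e ∈ F.erase a, (inc s F φ (T ∩ S) e).card) :=
      Finset.sum_induction _ Even (fun _ _ => Even.add) ⟨0, rfl⟩ r2
    rw [← add_sum_erase F _ haF] at r3
    rw [Nat.even_iff] at r1 r3 r4
    omega
  have hlt : (Z φ').card < (Z φ).card := by
    apply card_lt_card
    refine ⟨?_, ?_⟩
    · intro S' hS'
      have h1 := hnot S' hS'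
      obtain ⟨hS'D, hS'e⟩ := mem_filter.1 hS'
      refine mem_filter.2 ⟨hS'D, fun e he => ?_⟩
      have h2 : inc s F φ S' e = inc s F φ' S' e := by
        ext y
        simp only [inc, mem_filter]
        by_cases h : y = x
        · subst h
          simp [h1]
        · simp only [φ', Function.update_of_ne h]
      rw [h2]
      exact hS'e e he
    · intro h
      exact hnot S (h hSZ) hx
  exact absurd (hmin φ' hφ') (not_le.2 hlt)

end Pool.Agent.Helper29_CF.H92
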